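import Pool.Agent.Hhelper37.NTLFinal

set_option autoImplicit false

namespace Pool.Agent.Results.MP_6d8139_co.NearLinearLower

open Pool.Agent.NTL

theorem not_sqrt_of_lower (h : ∃ c : ℝ, 0 < c ∧ ∀ x : ℝ, 2 ≤ x →
    c * (x / (Real.log x) ^ 5) ≤ (N x : ℝ)) :
    ¬ ∃ C : ℝ, ∀ x : ℝ, 1 ≤ x → (N x : ℝ) ≤ C * Real.sqrt x := by
  rintro ⟨C, hC⟩
  obtain ⟨c, hc, hlow⟩ := h
  -- choose x = B ^ 20 with B large
  set K : ℝ := 20 ^ 5 * C / c + 1 with hK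
  set B : ℝ := max 2 K with hB
  have hB2 : 2 ≤ B := le_max_left _ _
  have hBK : K ≤ B := le_max_right _ _
  have hB0 : (0 : ℝ) < B := by linarith
  set x : ℝ := B ^ 20 with hx
  have hBx : B ≤ x := by
    rw [hx]
    calc B = B ^ 1 := (pow_one B).symm
      _ ≤ B ^ 20 := pow_le_pow_right₀ (by linarith) (by norm_num)
  have hx2 : 2 ≤ x := hB2.trans hBx
  have hx0 : 0 < x := by linarith
  have h1 := hlow x hx2
  have h2 := hC x (by linarith)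
  have hlogpos : 0 < Real.log x := Real.log_pos (by linarith)
  have h3 : Real.log x ≤ 20 * B := by
    rw [hx, Real.log_pow]
    have := Real.log_le_sub_one_of_pos hB0
    push_cast
    linarith
  have h4 : (Real.log x) ^ 5 ≤ 20 ^ 5 * B ^ 5 := by
    calc (Real.log x) ^ 5 ≤ (20 * B) ^ 5 := by gcongr
      _ = 20 ^ 5 * B ^ 5 := by ring
  have h6 : Real.sqrt x = B ^ 10 := by
    rw [hx, show B ^ 20 = (B ^ 10) ^ 2 by ring, Real.sqrt_sq (by positivity)]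
  rw [h6] at h2
  have h7 : x / (20 ^ 5 * B ^ 5) ≤ x / (Real.log x) ^ 5 := by gcongr
  have h8 : x / (20 ^ 5 * B ^ 5) = B ^ 10 * (B ^ 5 / 20 ^ 5) := by
    rw [hx]; field_simp
  have h9 : c * (B ^ 10 * (B ^ 5 / 20 ^ 5)) ≤ C * B ^ 10 := by
    rw [← h8]
    have := mul_le_mul_of_nonneg_left h7 hc.le
    linarith
  have h10 : (0 : ℝ) < B ^ 10 := by positivity
  have h11 : c * (B ^ 5 / 20 ^ 5) ≤ C := by
    have : B ^ 10 * (c * (B ^ 5 / 20 ^ 5)) ≤ B ^ 10 * C := by linarith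
    exact le_of_mul_le_mul_left this h10
  have h12 : B ≤ B ^ 5 := by
    calc B = B ^ 1 := (pow_one B).symm
      _ ≤ B ^ 5 := pow_le_pow_right₀ (by linarith) (by norm_num)
  have h13 : c * (B / 20 ^ 5) ≤ C := by
    refine le_trans ?_ h11
    gcongr
  have h14 : B ≤ 20 ^ 5 * C / c := by
    rw [le_div_iff₀ hc]
    have : c * (B / 20 ^ 5) * 20 ^ 5 ≤ C * 20 ^ 5 := by gcongr
    have e : c * (B / 20 ^ 5) * 20 ^ 5 = B * c := by ring
    linarith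
  linarith

/-- Lower bound `N x ≥ c x / (log x)^5` for all `x ≥ 2`; in particular no bound `N x ≤ C √x`
holds with an absolute constant. -/
theorem result :
    (∃ c : ℝ, 0 < c ∧ ∀ x : ℝ, 2 ≤ x → c * (x / (Real.log x) ^ 5) ≤ (N x : ℝ)) ∧
    ¬ ∃ C : ℝ, ∀ x : ℝ, 1 ≤ x → (N x : ℝ) ≤ C * Real.sqrt x := by
  have h : ∃ c : ℝ, 0 < c ∧ ∀ x : ℝ, 2 ≤ x → c * (x / (Real.log x) ^ 5) ≤ (N x : ℝ) :=
    ⟨1 / 200000000000, by norm_num, lower_bound_B⟩
  exact ⟨h, not_sqrt_of_lower h⟩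

end Pool.Agent.Results.MP_6d8139_co.NearLinearLower
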