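import Pool.Agent.Hhelper37.NTLUpper

set_option autoImplicit false

namespace Pool.Agent.Results.MP_6d8139_co.UpperXOverLog

open Pool.Agent.NTL

/-- Upper bound `N x ≤ C x / log x`. -/
theorem result : ∃ C : ℝ, ∀ x : ℝ, 2 ≤ x → (N x : ℝ) ≤ C * (x / Real.log x) :=
  ⟨1200, upper_bound⟩

end Pool.Agent.Results.MP_6d8139_co.UpperXOverLog
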